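import Pool.Agent.Q113.XM.Stm

/-! # (XM-CNC) concentration -/

set_option autoImplicit false

namespace Pool.Agent.Q95.XM

open Finset Pool.Agent.Q54.EM Pool.Agent.Q113.XM

section

variable {ι : Type} [Fintype ι]

theorem ee_add (p x : ι → ℝ) (n : ℕ) : ∀ f g : ℝ → ℝ,
    EE p x n (fun s => f s + g s) = EE p x n f + EE p x n g := by
  induction n with
  | zero => intro f g; rfl
  | succ n ih =>
    intro f g
    simp only [EE]
    rw [← Finset.sum_add_distrib]
    refine Finset.sum_congr rfl fun i _ => ?_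
    rw [ih (fun s => f (s + x i)) (fun s => g (s + x i)), mul_add]

theorem ee_mul (p x : ι → ℝ) (n : ℕ) : ∀ (c : ℝ) (f : ℝ → ℝ),
    EE p x n (fun s => c * f s) = c * EE p x n f := by
  induction n with
  | zero => intro c f; rfl
  | succ n ih =>
    intro c f
    simp only [EE]
    rw [Finset.mul_sum]
    refine Finset.sum_congr rfl fun i _ => ?_
    rw [ih c (fun s => f (s + x i))]
    ring

theorem ee_mono {p x : ι → ℝ} (hw : Wl p x) (n : ℕ) : ∀ f g : ℝ → ℝ, (∀ s, 0 ≤ s → f s ≤ g s) →
    EE p x n f ≤ EE p x n g := by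
  induction n with
  | zero => intro f g h; exact h 0 le_rfl
  | succ n ih =>
    intro f g h
    simp only [EE]
    refine Finset.sum_le_sum fun i _ => ?_
    exact mul_le_mul_of_nonneg_left
      (ih _ _ fun s hs => h (s + x i) (add_nonneg hs (hw.y0 i))) (hw.p0 i)

theorem ee_const {p x : ι → ℝ} (hw : Wl p x) (c : ℝ) (n : ℕ) :
    EE p x n (fun _ => c) = c := by
  induction n with
  | zero => rfl
  | succ n ih =>
    simp only [EE]
    rw [ih, ← Finset.sum_mul, hw.p1, one_mul]

theorem ee_id {p x : ι → ℝ} (hw : Wl p x) (n : ℕ) :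
    EE p x n (fun s => s) = n * mu p x := by
  induction n with
  | zero => simp [EE]
  | succ n ih =>
    have h : ∀ i, EE p x n (fun s => s + x i) = n * mu p x + x i := by
      intro i
      rw [ee_add p x n (fun s => s) (fun _ => x i), ih, ee_const hw]
    simp only [EE]
    simp only [h, mul_add, Finset.sum_add_distrib]
    rw [← Finset.sum_mul, hw.p1]
    push_cast
    unfold mu
    ring

end

theorem t_CNC : S_CNC := by
  intro k hk ι _ p y d hw h1 h2
  obtain ⟨n, rfl⟩ : ∃ n, k = n + 1 := ⟨k - 1, by omega⟩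
  have hk0 : (0 : ℝ) < ((n + 1 : ℕ) : ℝ) := by positivity
  have hk1 : (1 : ℝ) ≤ ((n + 1 : ℕ) : ℝ) := by exact_mod_cast hk
  -- the probability is at most one and at most the mean
  have hU1 : UP p y (n + 1) 1 ≤ 1 := by
    have h3 := ee_mono hw (n + 1) (fun s => if (1 : ℝ) ≤ s then 1 else 0) (fun _ => 1)
      (fun s _ => by split_ifs <;> norm_num)
    rw [ee_const hw] at h3
    exact h3
  have hUm : UP p y (n + 1) 1 ≤ ((n + 1 : ℕ) : ℝ) * mu p y := by
    have h3 := ee_mono hw (n + 1) (fun s => if (1 : ℝ) ≤ s then 1 else 0) (fun s => s)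
      (fun s hs => by
        split_ifs with h
        · exact h
        · exact hs)
    rw [ee_id hw] at h3
    exact h3
  have hd : 0 ≤ d := by linarith
  -- the first absolute moment
  have hA : EE p y (n + 1) (fun s => |s - 1|) ≤ 3 * d := by
    have h3 := ee_mono hw (n + 1) (fun s => |s - 1|)
      (fun s => s + (1 + (-2) * (if (1 : ℝ) ≤ s then 1 else 0))) (fun s hs => by
        split_ifs with h
        · rw [abs_of_nonneg (by linarith)]
          linarith
        · rw [abs_of_nonpos (by linarith)]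
          linarith)
    rw [ee_add p y (n + 1) (fun s => s) (fun s => 1 + (-2) * (if (1 : ℝ) ≤ s then 1 else 0)),
      ee_add p y (n + 1) (fun _ => 1) (fun s => (-2) * (if (1 : ℝ) ≤ s then 1 else 0)),
      ee_mul p y (n + 1) (-2) (fun s => if (1 : ℝ) ≤ s then 1 else 0), ee_id hw,
      ee_const hw] at h3
    have h4 : EE p y (n + 1) (fun s => if (1 : ℝ) ≤ s then 1 else 0) = UP p y (n + 1) 1 := rfl
    rw [h4] at h3
    linarith
  obtain ⟨g, hg⟩ : ∃ g : ι → ℝ, g = fun a => EE p y n (fun s => |s + y a - 1|) := ⟨_, rfl⟩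
  have hA' : ∑ a, p a * g a ≤ 3 * d := by
    rw [hg]
    exact hA
  have hab : ∀ a b, |y a - y b| ≤ g a + g b := by
    intro a b
    have h3 := ee_mono hw n (fun _ => |y a - y b|) (fun s => |s + y a - 1| + |s + y b - 1|)
      (fun s _ => by
        have h4 : y a - y b = (s + y a - 1) - (s + y b - 1) := by ring
        rw [h4]
        exact abs_sub _ _)
    rw [ee_const hw, ee_add p y n (fun s => |s + y a - 1|) (fun s => |s + y b - 1|)] at h3
    rw [hg]
    exact h3
  have hma : ∀ a, |y a - mu p y| ≤ g a + ∑ b, p b * g b := by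
    intro a
    have h3 : y a - mu p y = ∑ b, p b * (y a - y b) := by
      simp only [mul_sub, Finset.sum_sub_distrib]
      rw [← Finset.sum_mul, hw.p1, one_mul]
      rfl
    rw [h3]
    refine (Finset.abs_sum_le_sum_abs _ _).trans ?_
    have h4 : ∀ b, |p b * (y a - y b)| ≤ p b * g a + p b * g b := by
      intro b
      rw [abs_mul, abs_of_nonneg (hw.p0 b), ← mul_add]
      exact mul_le_mul_of_nonneg_left (hab a b) (hw.p0 b)
    refine (Finset.sum_le_sum fun b _ => h4 b).trans (le_of_eq ?_)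
    rw [Finset.sum_add_distrib, ← Finset.sum_mul, hw.p1, one_mul]
  have hmk : |mu p y - 1 / ((n + 1 : ℕ) : ℝ)| ≤ d := by
    have h3 : mu p y - 1 / ((n + 1 : ℕ) : ℝ)
        = (((n + 1 : ℕ) : ℝ) * mu p y - 1) / ((n + 1 : ℕ) : ℝ) := by
      field_simp
    rw [h3, abs_div, abs_of_pos hk0, div_le_iff₀ hk0]
    have h4 : |((n + 1 : ℕ) : ℝ) * mu p y - 1| ≤ d := by
      rw [abs_le]
      constructor <;> linarith
    nlinarith
  have hfin : ∀ a, p a * |y a - 1 / ((n + 1 : ℕ) : ℝ)|
      ≤ p a * g a + p a * (∑ b, p b * g b) + p a * d := by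
    intro a
    rw [← mul_add, ← mul_add]
    refine mul_le_mul_of_nonneg_left ?_ (hw.p0 a)
    have h3 : y a - 1 / ((n + 1 : ℕ) : ℝ)
        = (y a - mu p y) + (mu p y - 1 / ((n + 1 : ℕ) : ℝ)) := by ring
    rw [h3]
    exact (abs_add_le _ _).trans (add_le_add (hma a) hmk)
  refine (Finset.sum_le_sum fun a _ => hfin a).trans ?_
  rw [Finset.sum_add_distrib, Finset.sum_add_distrib, ← Finset.sum_mul, ← Finset.sum_mul, hw.p1]
  linarith

end Pool.Agent.Q95.XM
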